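import Mathlib

/-!
# A word satisfied with probability tending to one which is not a law

Let `G` be the wreath product of the free group `L` on two letters with `ℤ⁶` and
`w = [[x₁, x₂], x₀ [x₃, x₄] x₀⁻¹]`. An element of `G` is a pair of a finitely supported function
`ℤ⁶ → L` (the lamps) and a position in `ℤ⁶`. The values of `[x₁, x₂]` and `[x₃, x₄]` have position
`0`. After `n` steps their lamps are supported on at most `4 n` positions each, and conjugation by
`x₀` translates the lamps of the second commutator by the position of `x₀`, which takes each value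
with probability at most `(n + 1) ^ (-3)`. So the two supports are disjoint, and the word is trivial,
except for an event of probability at most `16 n² / (n + 1)³`.
-/

set_option autoImplicit false

open Filter Topology
open scoped commutatorElement

namespace Pool.Agent.Results.MP_ffcf77_al.FarLamps

/-! ### The definitions used in the statement -/

/-- The position `R_n = s_1 s_2 ⋯ s_n` of the walk with steps `s_1, …, s_n` in the set `T`. -/
def position {G : Type} [Group G] {T : Set G} {n : ℕ} (s : Fin n → T) : G :=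
  (List.ofFn fun k => (s k : G)).prod

/-- The probability `p_n(w)` that `d` independent lazy random walks `R_n^(1), …, R_n^(d)`, with
independent steps uniformly distributed in `S ∪ {1}`, satisfy `w(R_n^(1), …, R_n^(d)) = 1`: the
proportion of the arrays `(s i k)`, `i < d`, `k < n`, of steps for which this holds. -/
noncomputable def prob {G : Type} [Group G] (S : Set G) {d : ℕ} (w : FreeGroup (Fin d)) (n : ℕ) : ℝ :=
  (Nat.card {s : Fin d → Fin n → (S ∪ {1} : Set G) //
      FreeGroup.lift (fun i => position (s i)) w = 1} : ℝ) /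
    (Nat.card (Fin d → Fin n → (S ∪ {1} : Set G)) : ℝ)

/-! ### The wreath product -/

/-- The group of the lamps. -/
abbrev L : Type := FreeGroup (Fin 2)

/-- The group of the positions. -/
abbrev P : Type := Fin 6 → ℤ

/-- The unrestricted wreath product. -/
@[ext] structure W where
  lamp : P → L
  pos : P

namespace W

instance : Mul W := ⟨fun a b => ⟨fun p => a.lamp p * b.lamp (p - a.pos), a.pos + b.pos⟩⟩
instance : One W := ⟨⟨fun _ => 1, 0⟩⟩
instance : Inv W := ⟨fun a => ⟨fun p => (a.lamp (p + a.pos))⁻¹, -a.pos⟩⟩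

@[simp] theorem mul_lamp (a b : W) (p : P) : (a * b).lamp p = a.lamp p * b.lamp (p - a.pos) := rfl
@[simp] theorem mul_pos (a b : W) : (a * b).pos = a.pos + b.pos := rfl
@[simp] theorem one_lamp (p : P) : (1 : W).lamp p = 1 := rfl
@[simp] theorem one_pos : (1 : W).pos = 0 := rfl
@[simp] theorem inv_lamp (a : W) (p : P) : (a⁻¹).lamp p = (a.lamp (p + a.pos))⁻¹ := rfl
@[simp] theorem inv_pos (a : W) : (a⁻¹).pos = -a.pos := rfl

instance : Group W where
  mul_assoc a b c := by
    ext p
    · simp only [mul_lamp, mul_pos, mul_assoc, sub_sub]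
    · simp [add_assoc]
  one_mul a := by
    ext p <;> simp
  mul_one a := by
    ext p <;> simp
  inv_mul_cancel a := by
    ext p <;> simp

theorem comm_pos (a b : W) : (⁅a, b⁆ : W).pos = 0 := by
  simp [commutatorElement_def]

theorem comm_lamp (a b : W) (p : P) : (⁅a, b⁆ : W).lamp p =
    a.lamp p * b.lamp (p - a.pos) * (a.lamp (p - b.pos))⁻¹ * (b.lamp p)⁻¹ := by
  have h1 : p - (a.pos + b.pos) + a.pos = p - b.pos := by abel
  have h2 : p - (a.pos + b.pos + -a.pos) + b.pos = p := by abel
  simp only [commutatorElement_def, mul_lamp, mul_pos, inv_lamp, inv_pos, h1, h2]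

theorem conj_lamp (a v : W) (hv : v.pos = 0) (p : P) : (a * v * a⁻¹).lamp p =
    a.lamp p * v.lamp (p - a.pos) * (a.lamp p)⁻¹ := by
  have h1 : p - (a.pos + 0) + a.pos = p := by abel
  simp only [mul_lamp, mul_pos, inv_lamp, hv, h1]

theorem conj_pos (a v : W) (hv : v.pos = 0) : (a * v * a⁻¹).pos = 0 := by
  simp [hv]

theorem comm_eq_one {u v : W} (hu : u.pos = 0) (hv : v.pos = 0)
    (h : ∀ p, u.lamp p = 1 ∨ v.lamp p = 1) : ⁅u, v⁆ = 1 := by
  ext p
  · rw [comm_lamp, hu, hv, sub_zero, one_lamp]
    rcases h p with h | h <;> simp [h]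
  · rw [comm_pos]; rfl

end W

open W

/-! ### The steps -/

/-- The steps: a letter (or nothing) for the lamp and a vertex of the unit cube. -/
abbrev X : Type := Option (Fin 2) × (Fin 6 → Bool)

/-- The vertex of the cube. -/
def vec (x : X) : P := fun j => if x.2 j then 1 else 0

/-- The element of the lamp. -/
def let' (x : X) : L := x.1.elim 1 FreeGroup.of

/-- The steps as elements of `W`. -/
def enc (x : X) : W := ⟨fun p => if p = 0 then let' x else 1, vec x⟩

theorem vec_injective {x y : X} (h : vec x = vec y) : x.2 = y.2 := by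
  funext j
  have := congrFun h j
  unfold vec at this
  by_cases h1 : x.2 j <;> by_cases h2 : y.2 j <;> simp_all

theorem enc_injective : Function.Injective enc := by
  intro x y h
  have h1 : let' x = let' y := by
    have := congrArg (fun a => a.lamp 0) h
    simpa [enc] using this
  have h2 : vec x = vec y := congrArg W.pos h
  have h3 := vec_injective h2
  have h4 : x.1 = y.1 := by
    rcases x with ⟨_ | i, x2⟩ <;> rcases y with ⟨_ | j, y2⟩
    · rfl
    · exact absurd h1.symm (FreeGroup.of_ne_one j)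
    · exact absurd h1 (FreeGroup.of_ne_one i)
    · exact congrArg some (FreeGroup.of_injective h1)
  exact Prod.ext h4 h3

theorem enc_one : enc (none, fun _ => false) = 1 := by
  ext p
  · simp [enc, let']
  · rfl

/-! ### The walk -/

/-- The partial sums. -/
def part {n : ℕ} (s : Fin n → X) (k : ℕ) : P := (((List.ofFn s).take k).map vec).sum

/-- The end of the walk of the positions. -/
def endp {n : ℕ} (s : Fin n → X) : P := ((List.ofFn s).map vec).sum

/-- The end of the walk in `W`. -/
def walk {n : ℕ} (s : Fin n → X) : W := ((List.ofFn s).map enc).prod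

theorem pos_prod (l : List X) : ((l.map enc).prod).pos = (l.map vec).sum := by
  induction l with
  | nil => rfl
  | cons x l ih => simp only [List.map_cons, List.prod_cons, List.sum_cons, mul_pos, ih]; rfl

theorem lamp_prod (l : List X) : ∀ p : P, ((l.map enc).prod).lamp p ≠ 1 →
    ∃ k < l.length, p = ((l.take k).map vec).sum := by
  induction l with
  | nil => intro p h; exact absurd rfl h
  | cons x l ih =>
    intro p h
    rw [List.map_cons, List.prod_cons, mul_lamp] at h
    by_cases h1 : (enc x).lamp p = 1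
    · rw [h1, one_mul] at h
      obtain ⟨k, hk, hp⟩ := ih _ h
      refine ⟨k + 1, by simpa using hk, ?_⟩
      rw [List.take_succ_cons, List.map_cons, List.sum_cons, ← hp]
      change p = vec x + (p - vec x)
      abel
    · refine ⟨0, by simp, ?_⟩
      have : p = 0 := by
        by_contra h0
        exact h1 (by simp [enc, h0])
      simp [this]

theorem pos_walk {n : ℕ} (s : Fin n → X) : (walk s).pos = endp s := pos_prod _

theorem lamp_walk {n : ℕ} (s : Fin n → X) (p : P) (h : (walk s).lamp p ≠ 1) :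
    ∃ k : Fin n, p = part s k := by
  obtain ⟨k, hk, hp⟩ := lamp_prod _ p h
  rw [List.length_ofFn] at hk
  exact ⟨⟨k, hk⟩, hp⟩

/-- The possible positions of the lamps of the commutator of two walks. -/
def loc {n : ℕ} (c : Fin 4) (a b : Fin n → X) (k : Fin n) : P :=
  match c with
  | 0 => part a k
  | 1 => endp a + part b k
  | 2 => endp b + part a k
  | 3 => part b k

theorem lamp_comm {n : ℕ} (a b : Fin n → X) (p : P) (h : (⁅walk a, walk b⁆ : W).lamp p ≠ 1) :
    ∃ (c : Fin 4) (k : Fin n), p = loc c a b k := by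
  rw [comm_lamp, pos_walk, pos_walk] at h
  by_cases h1 : (walk a).lamp p = 1
  · by_cases h2 : (walk b).lamp (p - endp a) = 1
    · by_cases h3 : (walk a).lamp (p - endp b) = 1
      · by_cases h4 : (walk b).lamp p = 1
        · exact absurd (by simp [h1, h2, h3, h4]) h
        · obtain ⟨k, hk⟩ := lamp_walk b p h4
          exact ⟨3, k, hk⟩
      · obtain ⟨k, hk⟩ := lamp_walk a _ h3
        exact ⟨2, k, by rw [loc, ← hk]; abel⟩
    · obtain ⟨k, hk⟩ := lamp_walk b _ h2
      exact ⟨1, k, by rw [loc, ← hk]; abel⟩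
  · obtain ⟨k, hk⟩ := lamp_walk a p h1
    exact ⟨0, k, hk⟩

/-- The word. -/
def word : FreeGroup (Fin 5) :=
  ⁅⁅(FreeGroup.of 1 : FreeGroup (Fin 5)), (FreeGroup.of 2 : FreeGroup (Fin 5))⁆,
    FreeGroup.of 0 * ⁅(FreeGroup.of 3 : FreeGroup (Fin 5)), (FreeGroup.of 4 : FreeGroup (Fin 5))⁆ *
      (FreeGroup.of 0)⁻¹⁆

theorem lift_word {G : Type} [Group G] (g : Fin 5 → G) : FreeGroup.lift g word =
    ⁅⁅g 1, g 2⁆, g 0 * ⁅g 3, g 4⁆ * (g 0)⁻¹⁆ := by
  simp only [word, map_commutatorElement, map_mul, map_inv, FreeGroup.lift_apply_of]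

theorem bad {n : ℕ} (s : Fin 5 → Fin n → X)
    (h : FreeGroup.lift (fun i => walk (s i)) word ≠ 1) :
    ∃ (c c' : Fin 4) (k k' : Fin n),
      endp (s 0) = loc c (s 1) (s 2) k - loc c' (s 3) (s 4) k' := by
  rw [lift_word] at h
  by_contra hc
  push Not at hc
  apply h
  refine comm_eq_one (comm_pos _ _) (conj_pos _ _ (comm_pos _ _)) fun p => ?_
  by_contra hp
  push Not at hp
  obtain ⟨h1, h2⟩ := hp
  obtain ⟨c, k, hk⟩ := lamp_comm _ _ _ h1
  rw [conj_lamp _ _ (comm_pos _ _)] at h2
  have h3 : (⁅walk (s 3), walk (s 4)⁆ : W).lamp (p - (walk (s 0)).pos) ≠ 1 := by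
    intro h3
    exact h2 (by simp [h3])
  obtain ⟨c', k', hk'⟩ := lamp_comm _ _ _ h3
  refine hc c c' k k' ?_
  rw [← hk, ← hk', pos_walk]
  abel

/-! ### Counting -/

theorem centralBinom_bound (m : ℕ) : m.centralBinom ^ 2 * (2 * m + 1) ≤ 16 ^ m := by
  induction m with
  | zero => simp
  | succ m ih =>
    have h := Nat.succ_mul_centralBinom_succ m
    have h1 : (m + 1) ^ 2 * ((m + 1).centralBinom ^ 2 * (2 * (m + 1) + 1)) ≤
        (m + 1) ^ 2 * 16 ^ (m + 1) := by
      calc (m + 1) ^ 2 * ((m + 1).centralBinom ^ 2 * (2 * (m + 1) + 1))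
          = ((m + 1) * (m + 1).centralBinom) ^ 2 * (2 * m + 3) := by ring
        _ = (m.centralBinom ^ 2 * (2 * m + 1)) * (4 * ((2 * m + 1) * (2 * m + 3))) := by
            rw [h]; ring
        _ ≤ 16 ^ m * (4 * (4 * (m + 1) ^ 2)) := by
            refine Nat.mul_le_mul ih (Nat.mul_le_mul_left 4 ?_)
            nlinarith
        _ = (m + 1) ^ 2 * 16 ^ (m + 1) := by ring
    exact Nat.le_of_mul_le_mul_left h1 (by positivity)

theorem choose_bound (n : ℕ) : (n.choose (n / 2)) ^ 2 * (n + 1) ≤ 4 ^ n := by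
  obtain ⟨m, rfl | rfl⟩ := Nat.even_or_odd' n
  · have h : 2 * m / 2 = m := by omega
    rw [h, ← Nat.centralBinom_eq_two_mul_choose]
    calc _ ≤ 16 ^ m := centralBinom_bound m
      _ = 4 ^ (2 * m) := by rw [pow_mul]; norm_num
  · have h : (2 * m + 1) / 2 = m := by omega
    rw [h]
    have h1 : (m + 1).centralBinom = 2 * (2 * m + 1).choose m := by
      rw [Nat.centralBinom_eq_two_mul_choose]
      have h2 : 2 * (m + 1) = (2 * m + 1) + 1 := by ring
      rw [h2, Nat.choose_succ_succ, Nat.choose_symm_half]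
      ring
    have h2 := centralBinom_bound (m + 1)
    rw [h1] at h2
    have h3 : 4 * (((2 * m + 1).choose m) ^ 2 * (2 * m + 1 + 1)) ≤ 4 * 4 ^ (2 * m + 1) := by
      calc 4 * (((2 * m + 1).choose m) ^ 2 * (2 * m + 1 + 1))
          ≤ (2 * (2 * m + 1).choose m) ^ 2 * (2 * (m + 1) + 1) := by nlinarith [Nat.zero_le (((2 * m + 1).choose m) ^ 2)]
        _ ≤ 16 ^ (m + 1) := h2
        _ = 4 * 4 ^ (2 * m + 1) := by
            rw [show (16 : ℕ) = 4 ^ 2 by norm_num, ← pow_mul]; ring
    omega

theorem endp_apply {n : ℕ} (s : Fin n → X) (j : Fin 6) :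
    endp s j = ((Finset.univ.filter fun k => (s k).2 j = true).card : ℤ) := by
  have h : endp s = ∑ k, vec (s k) := by
    rw [endp, List.map_ofFn, List.sum_ofFn]
    rfl
  rw [h, Finset.sum_apply, Finset.card_filter]
  push_cast
  rfl

/-- The number of walks with a given end. -/
theorem card_endp (n : ℕ) (q : P) :
    (Finset.univ.filter fun s : Fin n → X => endp s = q).card ≤ 3 ^ n * (n.choose (n / 2)) ^ 6 := by
  classical
  let F : (Fin n → X) → (Fin n → Option (Fin 2)) × (Fin 6 → Finset (Fin n)) :=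
    fun s => (fun k => (s k).1, fun j => Finset.univ.filter fun k => (s k).2 j = true)
  have hF : Function.Injective F := by
    intro s t h
    funext k
    refine Prod.ext (congrFun (congrArg Prod.fst h) k) ?_
    funext j
    have h1 : k ∈ (F s).2 j ↔ k ∈ (F t).2 j := by rw [h]
    simp only [F, Finset.mem_filter, Finset.mem_univ, true_and] at h1
    exact Bool.eq_iff_iff.2 h1
  have hsub : (Finset.univ.filter fun s : Fin n → X => endp s = q).image F ⊆
      Finset.univ ×ˢ Fintype.piFinset fun j => Finset.powersetCard (q j).toNat Finset.univ := by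
    intro y hy
    obtain ⟨s, hs, rfl⟩ := Finset.mem_image.1 hy
    rw [Finset.mem_filter] at hs
    rw [Finset.mem_product]
    refine ⟨Finset.mem_univ _, ?_⟩
    rw [Fintype.mem_piFinset]
    intro j
    rw [Finset.mem_powersetCard]
    refine ⟨Finset.subset_univ _, ?_⟩
    have h1 := endp_apply s j
    rw [hs.2] at h1
    rw [h1]
    simp [F]
  calc (Finset.univ.filter fun s : Fin n → X => endp s = q).card
      = ((Finset.univ.filter fun s : Fin n → X => endp s = q).image F).card :=
        (Finset.card_image_of_injective _ hF).symm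
    _ ≤ _ := Finset.card_le_card hsub
    _ = 3 ^ n * ∏ j : Fin 6, n.choose (q j).toNat := by
        rw [Finset.card_product, Fintype.card_piFinset]
        simp [Finset.card_powersetCard]
    _ ≤ 3 ^ n * ∏ _j : Fin 6, n.choose (n / 2) := by
        refine Nat.mul_le_mul_left _ (Finset.prod_le_prod' fun j _ => Nat.choose_le_middle _ _)
    _ = 3 ^ n * (n.choose (n / 2)) ^ 6 := by simp

/-- The number of arrays for which the end of the first walk is a given function of the others. -/
theorem card_fiber (n : ℕ) (D : (Fin 4 → Fin n → X) → P) :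
    (Finset.univ.filter fun s : Fin 5 → Fin n → X => endp (s 0) = D (Fin.tail s)).card ≤
      (192 ^ n) ^ 4 * (3 ^ n * (n.choose (n / 2)) ^ 6) := by
  classical
  have h1 : (Finset.univ.filter fun s : Fin 5 → Fin n → X => endp (s 0) = D (Fin.tail s)).card =
      ∑ r : Fin 4 → Fin n → X, (Finset.univ.filter fun t : Fin n → X => endp t = D r).card := by
    rw [← Finset.card_sigma]
    refine Finset.card_bij' (fun s _ => ⟨Fin.tail s, s 0⟩) (fun p _ => Fin.cons p.2 p.1) ?_ ?_ ?_ ?_
    · intro s hs
      simpa using hs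
    · rintro ⟨r, t⟩ h
      simpa using h
    · intro s _
      exact Fin.cons_self_tail s
    · rintro ⟨r, t⟩ _
      simp
  rw [h1]
  calc ∑ r : Fin 4 → Fin n → X, (Finset.univ.filter fun t : Fin n → X => endp t = D r).card
      ≤ ∑ _r : Fin 4 → Fin n → X, 3 ^ n * (n.choose (n / 2)) ^ 6 :=
        Finset.sum_le_sum fun r _ => card_endp n (D r)
    _ = (192 ^ n) ^ 4 * (3 ^ n * (n.choose (n / 2)) ^ 6) := by
        rw [Finset.sum_const, Finset.card_univ, smul_eq_mul]
        congr 1
        simp [X]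

/-- The difference of two positions of lamps, as a function of the last four walks. -/
def diff {n : ℕ} (i : (Fin 4 × Fin 4) × (Fin n × Fin n)) (r : Fin 4 → Fin n → X) : P :=
  loc i.1.1 (r 0) (r 1) i.2.1 - loc i.1.2 (r 2) (r 3) i.2.2

theorem card_bad (n : ℕ) (B : Finset (Fin 5 → Fin n → X))
    (hB : ∀ s ∈ B, ∃ (c c' : Fin 4) (k k' : Fin n),
        endp (s 0) = loc c (s 1) (s 2) k - loc c' (s 3) (s 4) k') :
    B.card ≤ 16 * n ^ 2 * ((192 ^ n) ^ 4 * (3 ^ n * (n.choose (n / 2)) ^ 6)) := by
  classical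
  have hsub : B ⊆ (Finset.univ : Finset ((Fin 4 × Fin 4) × (Fin n × Fin n))).biUnion fun i =>
        Finset.univ.filter fun s : Fin 5 → Fin n → X => endp (s 0) = diff i (Fin.tail s) := by
    intro s hs
    obtain ⟨c, c', k, k', h⟩ := hB s hs
    rw [Finset.mem_biUnion]
    exact ⟨((c, c'), (k, k')), Finset.mem_univ _, Finset.mem_filter.2 ⟨Finset.mem_univ _, h⟩⟩
  have hcard : Fintype.card ((Fin 4 × Fin 4) × (Fin n × Fin n)) = 16 * n ^ 2 := by
    rw [Fintype.card_prod, Fintype.card_prod, Fintype.card_prod, Fintype.card_fin, Fintype.card_fin]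
    ring
  calc B.card ≤ _ := Finset.card_le_card hsub
    _ ≤ _ := Finset.card_biUnion_le
    _ ≤ ∑ _i : (Fin 4 × Fin 4) × (Fin n × Fin n),
        (192 ^ n) ^ 4 * (3 ^ n * (n.choose (n / 2)) ^ 6) :=
        Finset.sum_le_sum fun i _ => card_fiber n (diff i)
    _ = _ := by rw [Finset.sum_const, Finset.card_univ, smul_eq_mul, hcard]

/-! ### The group -/

/-- The group `G`, the restricted wreath product. -/
abbrev G : Type := Subgroup.closure (Set.range enc)

/-- The steps as elements of `G`. -/
def encG (x : X) : G := ⟨enc x, Subgroup.subset_closure ⟨x, rfl⟩⟩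

/-- The generating set. -/
def S : Set G := Set.range encG

theorem S_finite : S.Finite := Set.finite_range _

theorem S_eq : S = Subtype.val ⁻¹' (Set.range enc) := by
  ext g
  constructor
  · rintro ⟨x, rfl⟩
    exact ⟨x, rfl⟩
  · rintro ⟨x, hx⟩
    exact ⟨x, Subtype.ext hx⟩

theorem closure_S : Subgroup.closure S = ⊤ := by
  rw [S_eq]
  exact Subgroup.closure_closure_coe_preimage

theorem S_union : Set.range encG = S ∪ {1} := by
  rw [Set.union_eq_left.2]
  · rfl
  · rintro g rfl
    exact ⟨(none, fun _ => false), Subtype.ext enc_one⟩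

theorem encG_injective : Function.Injective encG := fun _ _ h =>
  enc_injective (congrArg Subtype.val h)

/-- The steps of the lazy random walk. -/
noncomputable def stepEquiv : X ≃ (S ∪ {1} : Set G) :=
  (Equiv.ofInjective encG encG_injective).trans (Equiv.setCongr S_union)

theorem stepEquiv_val (x : X) : ((stepEquiv x : G) : W) = enc x := rfl

theorem position_stepEquiv {n : ℕ} (s : Fin n → X) :
    ((position (fun k => stepEquiv (s k)) : G) : W) = walk s := by
  unfold position walk
  rw [← Subgroup.coe_subtype, map_list_prod, List.map_ofFn, List.map_ofFn]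
  rfl

theorem lift_val (g : Fin 5 → G) (w : FreeGroup (Fin 5)) :
    ((FreeGroup.lift g w : G) : W) = FreeGroup.lift (fun i => (g i : W)) w := by
  have h : (Subgroup.subtype _).comp (FreeGroup.lift g) = FreeGroup.lift (fun i => (g i : W)) :=
    FreeGroup.ext_hom _ _ fun i => by simp
  exact DFunLike.congr_fun h w

theorem prob_lower (n : ℕ) : 1 - 16 / ((n : ℝ) + 1) ≤ prob S word n := by
  classical
  let good : (Fin 5 → Fin n → X) → Prop :=
    fun s => FreeGroup.lift (fun i => walk (s i)) word = 1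
  have hgood : Nat.card {s : Fin 5 → Fin n → (S ∪ {1} : Set G) //
      FreeGroup.lift (fun i => position (s i)) word = 1} =
      (Finset.univ.filter good).card := by
    rw [← Fintype.card_subtype, ← Nat.card_eq_fintype_card]
    refine (Nat.card_congr ?_).symm
    refine Equiv.subtypeEquiv
      (Equiv.arrowCongr (Equiv.refl _) (Equiv.arrowCongr (Equiv.refl _) stepEquiv)) fun s => ?_
    change FreeGroup.lift (fun i => walk (s i)) word = 1 ↔
      FreeGroup.lift (fun i => position (fun k => stepEquiv (s i k))) word = 1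
    rw [← Subtype.coe_inj, lift_val]
    simp only [position_stepEquiv]
    rfl
  have htot : Nat.card (Fin 5 → Fin n → (S ∪ {1} : Set G)) = (192 ^ n) ^ 5 := by
    rw [Nat.card_congr (Equiv.arrowCongr (Equiv.refl (Fin 5))
      (Equiv.arrowCongr (Equiv.refl (Fin n)) stepEquiv)).symm]
    simp [X, Nat.card_eq_fintype_card]
  have hbad : (Finset.univ.filter fun s => ¬ good s).card ≤
      16 * n ^ 2 * ((192 ^ n) ^ 4 * (3 ^ n * (n.choose (n / 2)) ^ 6)) :=
    card_bad n _ fun s hs => bad s (Finset.mem_filter.1 hs).2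
  have hsum : (Finset.univ.filter good).card + (Finset.univ.filter fun s => ¬ good s).card =
      (192 ^ n) ^ 5 := by
    rw [Finset.card_filter_add_card_filter_not, Finset.card_univ]
    simp [X]
  have hch : ((n.choose (n / 2) : ℝ)) ^ 6 * ((n : ℝ) + 1) ^ 3 ≤ 64 ^ n := by
    have h := choose_bound n
    have h1 : ((n.choose (n / 2) : ℝ)) ^ 2 * ((n : ℝ) + 1) ≤ 4 ^ n := by exact_mod_cast h
    calc ((n.choose (n / 2) : ℝ)) ^ 6 * ((n : ℝ) + 1) ^ 3
        = (((n.choose (n / 2) : ℝ)) ^ 2 * ((n : ℝ) + 1)) ^ 3 := by ring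
      _ ≤ (4 ^ n) ^ 3 := pow_le_pow_left₀ (by positivity) h1 3
      _ = 64 ^ n := by rw [← pow_mul, mul_comm, pow_mul]; norm_num
  have hbad' : ((Finset.univ.filter fun s => ¬ good s).card : ℝ) ≤
      16 * (n : ℝ) ^ 2 * ((192 ^ n) ^ 4 * (3 ^ n * ((n.choose (n / 2) : ℕ) : ℝ) ^ 6)) := by
    exact_mod_cast hbad
  have hsum' : ((Finset.univ.filter good).card : ℝ) +
      ((Finset.univ.filter fun s => ¬ good s).card : ℝ) = (192 ^ n) ^ 5 := by
    exact_mod_cast hsum
  have hpos : (0 : ℝ) < (192 ^ n) ^ 5 := by positivity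
  have hn : (0 : ℝ) < (n : ℝ) + 1 := by positivity
  unfold prob
  rw [hgood, htot]
  push_cast
  rw [le_div_iff₀ hpos]
  have key : 16 * (n : ℝ) ^ 2 * ((192 ^ n) ^ 4 * (3 ^ n * ((n.choose (n / 2) : ℕ) : ℝ) ^ 6)) ≤
      16 / ((n : ℝ) + 1) * (192 ^ n) ^ 5 := by
    have e : (192 : ℝ) ^ n = 3 ^ n * 64 ^ n := by rw [← mul_pow]; norm_num
    rw [div_mul_eq_mul_div, le_div_iff₀ hn]
    calc 16 * (n : ℝ) ^ 2 * ((192 ^ n) ^ 4 * (3 ^ n * ((n.choose (n / 2) : ℕ) : ℝ) ^ 6)) *
          ((n : ℝ) + 1)
        ≤ 16 * ((n : ℝ) + 1) ^ 2 * ((192 ^ n) ^ 4 * (3 ^ n * ((n.choose (n / 2) : ℕ) : ℝ) ^ 6)) *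
          ((n : ℝ) + 1) := by
          gcongr
          linarith
      _ = 16 * ((192 ^ n) ^ 4 * (3 ^ n * (((n.choose (n / 2) : ℕ) : ℝ) ^ 6 * ((n : ℝ) + 1) ^ 3))) := by
          ring
      _ ≤ 16 * ((192 ^ n) ^ 4 * (3 ^ n * 64 ^ n)) := by gcongr
      _ = 16 * (192 ^ n) ^ 5 := by rw [← e]; ring
  linarith

theorem prob_le_one (n : ℕ) : prob S word n ≤ 1 := by
  have hfin : Finite (S ∪ {1} : Set G) := Finite.of_equiv X stepEquiv
  unfold prob
  refine div_le_one_of_le₀ ?_ (Nat.cast_nonneg _)
  exact_mod_cast Nat.card_le_card_of_injective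
    (fun s : {s : Fin 5 → Fin n → (S ∪ {1} : Set G) //
      FreeGroup.lift (fun i => position (s i)) word = 1} => s.1) Subtype.val_injective

theorem tendsto_prob : Tendsto (prob S word) atTop (𝓝 1) := by
  have h : Tendsto (fun n : ℕ => 1 - 16 / ((n : ℝ) + 1)) atTop (𝓝 1) := by
    have h1 : Tendsto (fun n : ℕ => (16 : ℝ) / ((n : ℝ) + 1)) atTop (𝓝 0) :=
      tendsto_const_nhds.div_atTop (tendsto_atTop_add_const_right _ _ tendsto_natCast_atTop_atTop)
    simpa using tendsto_const_nhds.sub h1
  exact tendsto_of_tendsto_of_tendsto_of_le_of_le h tendsto_const_nhds prob_lower prob_le_one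

/-- The lamp at the origin. -/
def lampHom : L →* W where
  toFun l := ⟨fun p => if p = 0 then l else 1, 0⟩
  map_one' := by ext p <;> simp
  map_mul' a b := by
    ext p
    · by_cases h : p = 0 <;> simp [h]
    · simp

theorem lampHom_lamp (l : L) (p : P) : (lampHom l).lamp p = if p = 0 then l else 1 := rfl

theorem lampHom_injective : Function.Injective lampHom := by
  intro a b h
  have := congrArg (fun x => x.lamp 0) h
  simpa [lampHom] using this

theorem lampHom_mem (l : L) : lampHom l ∈ Subgroup.closure (Set.range enc) := by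
  have h : lampHom.range ≤ Subgroup.closure (Set.range enc) := by
    rw [MonoidHom.range_eq_map, ← FreeGroup.closure_range_of, MonoidHom.map_closure,
      Subgroup.closure_le]
    rintro _ ⟨_, ⟨i, rfl⟩, rfl⟩
    refine Subgroup.subset_closure ⟨(some i, fun _ => false), ?_⟩
    ext p
    · simp [enc, lampHom, let']
    · rfl
  exact h ⟨l, rfl⟩

theorem free_comm : (FreeGroup.of 0 * FreeGroup.of 1 * (FreeGroup.of 0)⁻¹ * (FreeGroup.of 1)⁻¹ : L) ≠ 1 := by
  decide

theorem not_law : ∃ g : Fin 5 → G, FreeGroup.lift g word ≠ 1 := by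
  let a : G := ⟨lampHom (FreeGroup.of 0), lampHom_mem _⟩
  let b : G := ⟨lampHom (FreeGroup.of 1), lampHom_mem _⟩
  let t : G := encG (none, fun _ => true)
  refine ⟨![1, a, t, b, t], fun h => ?_⟩
  rw [lift_word] at h
  have h0 : (⁅⁅(a : W), (t : W)⁆, (1 : W) * ⁅(b : W), (t : W)⁆ * (1 : W)⁻¹⁆ : W) = 1 :=
    congrArg Subtype.val h
  rw [one_mul, inv_one, mul_one] at h0
  have htpos : (0 : P) - (t : W).pos ≠ 0 := by
    intro h
    have := congrFun h 0
    simp [t, encG, enc, vec] at this
  have htlamp : ∀ p, (t : W).lamp p = 1 := fun p => by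
    simp [t, encG, enc, let']
  have hlamp : ∀ l : L, (⁅lampHom l, (t : W)⁆ : W).lamp 0 = l := by
    intro l
    rw [comm_lamp, htlamp, htlamp]
    simp only [mul_one, inv_one]
    have h1 : (lampHom l).lamp (0 - (t : W).pos) = 1 := by
      rw [lampHom_lamp, if_neg htpos]
    have h2 : (lampHom l).lamp 0 = l := by
      rw [lampHom_lamp, if_pos rfl]
    rw [h1, h2, inv_one, mul_one]
  have h1 := congrArg (fun g : W => g.lamp 0) h0
  have h2 : (⁅⁅(a : W), (t : W)⁆, ⁅(b : W), (t : W)⁆⁆ : W).lamp 0 =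
      FreeGroup.of 0 * FreeGroup.of 1 * (FreeGroup.of 0)⁻¹ * (FreeGroup.of 1)⁻¹ := by
    rw [comm_lamp, comm_pos, comm_pos, sub_zero]
    have ha : (⁅(a : W), (t : W)⁆ : W).lamp 0 = FreeGroup.of 0 := hlamp _
    have hb : (⁅(b : W), (t : W)⁆ : W).lamp 0 = FreeGroup.of 1 := hlamp _
    rw [ha, hb]
  exact free_comm (h2.symm.trans h1)

/-- **Theorem.** There are a group `G` with a finite generating set `S` and a word `w` in five
letters with `p_n(w) ≥ 1 - 16 / (n + 1)` for every `n` for the lazy random walk, so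
`lim p_n(w) = 1`, which is not a law of `G`. Moreover `G` contains a free group on two letters. -/
theorem result : ∃ (G : Type) (_ : Group G) (S : Set G) (w : FreeGroup (Fin 5)),
    S.Finite ∧ Subgroup.closure S = ⊤ ∧
    (∀ n : ℕ, 1 - 16 / ((n : ℝ) + 1) ≤ prob S w n) ∧
    Tendsto (prob S w) atTop (𝓝 1) ∧
    (∃ g : Fin 5 → G, FreeGroup.lift g w ≠ 1) ∧
    (∃ f : FreeGroup (Fin 2) →* G, Function.Injective f) := by
  refine ⟨G, inferInstance, S, word, S_finite, closure_S, prob_lower, tendsto_prob, not_law,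
    lampHom.codRestrict _ lampHom_mem, fun x y h => lampHom_injective (congrArg Subtype.val h)⟩

end Pool.Agent.Results.MP_ffcf77_al.FarLamps
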